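import Mathlib

/-!
# The curve `y² = x³ - (a x + b)²`
-/

set_option autoImplicit false
set_option linter.unusedSectionVars false
set_option linter.unusedVariables false

namespace Pool.Agent.W2helper3.RG

open WeierstrassCurve

variable {F : Type*} [Field F]

/-- the curve `y² = x³ - (a x + b)²` -/
structure IsAb (V : WeierstrassCurve F) (a b : F) : Prop where
  h1 : V.a₁ = 0
  h2 : V.a₂ = -a ^ 2
  h3 : V.a₃ = 0
  h4 : V.a₄ = -2 * a * b
  h6 : V.a₆ = -b ^ 2
  hb : b ≠ 0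
  hd : 4 * a ^ 3 + 27 * b ≠ 0

variable {V : WeierstrassCurve F} {a b : F} (hV : IsAb V a b)

include hV

lemma IsAb.eqn (x y : F) : V.toAffine.Equation x y ↔ y ^ 2 = x ^ 3 - (a * x + b) ^ 2 := by
  rw [Affine.equation_iff]
  show y ^ 2 + V.a₁ * x * y + V.a₃ * y = x ^ 3 + V.a₂ * x ^ 2 + V.a₄ * x + V.a₆ ↔ _
  rw [hV.h1, hV.h2, hV.h3, hV.h4, hV.h6]
  constructor
  · intro h; linear_combination h
  · intro h; linear_combination h

lemma IsAb.negY (x y : F) : V.toAffine.negY x y = -y := by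
  show -y - V.a₁ * x - V.a₃ = -y
  rw [hV.h1, hV.h3]
  ring

variable [CharZero F]

lemma IsAb.nons {x y : F} (he : y ^ 2 = x ^ 3 - (a * x + b) ^ 2) :
    V.toAffine.Nonsingular x y := by
  rw [Affine.nonsingular_iff]
  refine ⟨(hV.eqn x y).2 he, ?_⟩
  by_cases hy : y = 0
  · left
    show V.a₁ * y ≠ 3 * x ^ 2 + 2 * V.a₂ * x + V.a₄
    rw [hV.h1, hV.h2, hV.h4]
    intro h3
    subst hy
    have e1 : x ^ 3 = (a * x + b) ^ 2 := by linear_combination -he
    have e2 : 3 * x ^ 2 = 2 * a * (a * x + b) := by linear_combination -h3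
    have e3 : (a * x + b) * (a * x + 3 * b) = 0 := by
      linear_combination x * e2 - 3 * e1
    rcases mul_eq_zero.1 e3 with h4 | h4
    · rw [h4] at e1
      have hx : x = 0 := by
        have : x ^ 3 = 0 := by rw [e1]; ring
        exact pow_eq_zero_iff three_ne_zero |>.1 this
      subst hx
      apply hV.hb
      linear_combination h4
    · have h5 : x ^ 3 = 4 * b ^ 2 := by
        rw [e1]
        linear_combination (a * x - b) * h4
      have h6 : b ^ 2 * (4 * a ^ 3 + 27 * b) = 0 := by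
        linear_combination (-a ^ 3) * h5 + (a ^ 2 * x ^ 2 - 3 * a * x * b + 9 * b ^ 2) * h4
      exact mul_ne_zero (pow_ne_zero 2 hV.hb) hV.hd h6
  · right
    show y ≠ -y - V.a₁ * x - V.a₃
    rw [hV.h1, hV.h3]
    intro h5
    apply hy
    have : (2 : F) * y = 0 := by linear_combination h5
    exact (mul_eq_zero.1 this).resolve_left two_ne_zero

variable [DecidableEq F]

/-- the addition law -/
lemma IsAb.add_ex {x1 y1 x2 y2 : F} (h1 : V.toAffine.Nonsingular x1 y1)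
    (h2 : V.toAffine.Nonsingular x2 y2) (hxy : ¬ (x1 = x2 ∧ y1 = -y2)) :
    ∃ (ℓ X Y : F) (h : V.toAffine.Nonsingular X Y),
      (Affine.Point.some x1 y1 h1 : V.toAffine.Point) + .some x2 y2 h2 = .some X Y h ∧
      X = ℓ ^ 2 + a ^ 2 - x1 - x2 ∧ Y = -(ℓ * (X - x1) + y1) ∧
      ((x1 ≠ x2 ∧ ℓ * (x1 - x2) = y1 - y2) ∨
        (x1 = x2 ∧ y1 = y2 ∧ y1 ≠ 0 ∧ ℓ * (2 * y1) = 3 * x1 ^ 2 - 2 * a ^ 2 * x1 - 2 * a * b)) := by
  have hxy' : ¬ (x1 = x2 ∧ y1 = V.toAffine.negY x2 y2) := by rwa [hV.negY]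
  refine ⟨V.toAffine.slope x1 x2 y1 y2, _, _, _, Affine.Point.add_some hxy', ?_, ?_, ?_⟩
  · show _ ^ 2 + V.a₁ * _ - V.a₂ - x1 - x2 = _
    rw [hV.h1, hV.h2]
    ring
  · show -(_ * (_ ^ 2 + V.a₁ * _ - V.a₂ - x1 - x2 - x1) + y1) - V.a₁ * _ - V.a₃ =
      -(_ * ((_ ^ 2 + V.a₁ * _ - V.a₂ - x1 - x2) - x1) + y1)
    rw [hV.h1, hV.h3]
    ring
  · by_cases hx : x1 = x2
    · right
      subst hx
      have hy : y1 ≠ -y2 := fun h => hxy ⟨rfl, h⟩
      have e1 := (hV.eqn _ _).1 h1.1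
      have e2 := (hV.eqn _ _).1 h2.1
      have e3 : (y1 - y2) * (y1 + y2) = 0 := by linear_combination e1 - e2
      have e4 : y1 + y2 ≠ 0 := fun h => hy (by linear_combination h)
      have e5 : y1 = y2 := by
        have := (mul_eq_zero.1 e3).resolve_right e4
        linear_combination this
      subst e5
      have e6 : y1 ≠ 0 := by
        intro h
        apply e4
        rw [h, add_zero]
      refine ⟨rfl, rfl, e6, ?_⟩
      have hY : y1 ≠ V.toAffine.negY x1 y1 := by rwa [hV.negY]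
      rw [Affine.slope_of_Y_ne rfl hY, hV.negY]
      show (3 * x1 ^ 2 + 2 * V.a₂ * x1 + V.a₄ - V.a₁ * y1) / (y1 - (-y1)) * (2 * y1) = _
      rw [hV.h1, hV.h2, hV.h4]
      have e7 : y1 - (-y1) ≠ 0 := by
        intro h
        apply e4
        linear_combination h
      rw [div_mul_eq_mul_div, div_eq_iff e7]
      ring
    · left
      refine ⟨hx, ?_⟩
      rw [Affine.slope_of_X_ne hx, div_mul_cancel₀ _ (sub_ne_zero.2 hx)]

/-- opposite points -/
lemma IsAb.add_opp {x1 y1 x2 y2 : F} (h1 : V.toAffine.Nonsingular x1 y1)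
    (h2 : V.toAffine.Nonsingular x2 y2) (hxy : x1 = x2 ∧ y1 = -y2) :
    (Affine.Point.some x1 y1 h1 : V.toAffine.Point) + .some x2 y2 h2 = 0 :=
  Affine.Point.add_of_Y_eq hxy.1 (by rw [hV.negY]; exact hxy.2)

lemma IsAb.neg_nons {x y : F} (h : V.toAffine.Nonsingular x y) :
    V.toAffine.Nonsingular x (-y) := by
  apply hV.nons
  have := (hV.eqn _ _).1 h.1
  linear_combination this

lemma IsAb.neg_eq {x y : F} (h : V.toAffine.Nonsingular x y)
    (h' : V.toAffine.Nonsingular x (-y)) :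
    -(Affine.Point.some x y h : V.toAffine.Point) = .some x (-y) h' := by
  rw [Affine.Point.neg_some]
  congr 1
  exact hV.negY x y

/-- points with the same abscissa -/
lemma IsAb.eq_or {x y y' : F} (h : V.toAffine.Nonsingular x y) (h' : V.toAffine.Nonsingular x y') :
    (Affine.Point.some x y' h' : V.toAffine.Point) = .some x y h ∨
    (Affine.Point.some x y' h' : V.toAffine.Point) = -.some x y h := by
  have e1 := (hV.eqn _ _).1 h.1
  have e2 := (hV.eqn _ _).1 h'.1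
  have e3 : (y' - y) * (y' + y) = 0 := by linear_combination e2 - e1
  rcases mul_eq_zero.1 e3 with h4 | h4
  · left
    rw [Affine.Point.some.injEq]
    exact ⟨rfl, by linear_combination h4⟩
  · right
    rw [hV.neg_eq h (hV.neg_nons h), Affine.Point.some.injEq]
    exact ⟨rfl, by linear_combination h4⟩

/-- the symmetric functions of the abscissas -/
lemma IsAb.symm_fn {x1 y1 x2 y2 ℓ X : F} (e1 : y1 ^ 2 = x1 ^ 3 - (a * x1 + b) ^ 2)
    (e2 : y2 ^ 2 = x2 ^ 3 - (a * x2 + b) ^ 2) (hX : X = ℓ ^ 2 + a ^ 2 - x1 - x2)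
    (hs : (x1 ≠ x2 ∧ ℓ * (x1 - x2) = y1 - y2) ∨
        (x1 = x2 ∧ y1 = y2 ∧ y1 ≠ 0 ∧ ℓ * (2 * y1) = 3 * x1 ^ 2 - 2 * a ^ 2 * x1 - 2 * a * b)) :
    ℓ * (y1 + y2) = x1 ^ 2 + x1 * x2 + x2 ^ 2 - a ^ 2 * (x1 + x2) - 2 * a * b ∧
    x1 * x2 + X * (x1 + x2) = -(2 * (a * b) + 2 * (ℓ * (y1 - ℓ * x1))) ∧
    x1 * x2 * X = b ^ 2 + (y1 - ℓ * x1) ^ 2 := by
  have h0 : ℓ * (y1 + y2) = x1 ^ 2 + x1 * x2 + x2 ^ 2 - a ^ 2 * (x1 + x2) - 2 * a * b ∧
      ℓ * (x1 - x2) = y1 - y2 := by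
    rcases hs with ⟨g1, g2⟩ | ⟨rfl, rfl, g3, g4⟩
    · refine ⟨?_, g2⟩
      have h3 : x1 - x2 ≠ 0 := sub_ne_zero.2 g1
      apply mul_left_cancel₀ h3
      linear_combination (y1 + y2) * g2 + e1 - e2
    · exact ⟨by linear_combination g4, by ring⟩
  obtain ⟨h1, h2⟩ := h0
  refine ⟨h1, ?_, ?_⟩
  · rw [hX]
    linear_combination h1 - ℓ * h2
  · rw [hX]
    linear_combination x1 * h1 - e1 - ℓ * x1 * h2

/-- points of order three -/
lemma IsAb.three {x y : F} (h : V.toAffine.Nonsingular x y)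
    (h3 : (3 : ℤ) • (Affine.Point.some x y h : V.toAffine.Point) = 0) :
    x * (3 * x ^ 3 - 4 * a ^ 2 * x ^ 2 - 12 * a * b * x - 12 * b ^ 2) = 0 := by
  have he := (hV.eqn _ _).1 h.1
  set T : V.toAffine.Point := .some x y h with hT
  have h2 : T + T = -T := by
    have e : (3 : ℤ) • T = T + T + T := by abel
    rw [e] at h3
    exact eq_neg_of_add_eq_zero_left h3
  have hT0 : T ≠ 0 := Affine.Point.some_ne_zero _
  have hxy : ¬ (x = x ∧ y = -y) := by
    rintro hh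
    have := hV.add_opp h h hh
    rw [← hT, h2, neg_eq_zero] at this
    exact hT0 this
  obtain ⟨ℓ, X, Y, h', e', eX, eY, hs⟩ := hV.add_ex h h hxy
  rw [← hT, h2, hT, hV.neg_eq h (hV.neg_nons h), Affine.Point.some.injEq] at e'
  rw [← e'.1] at eX
  rcases hs with ⟨g, -⟩ | ⟨-, -, -, g⟩
  · exact absurd rfl g
  · have e1 : ℓ ^ 2 = 3 * x - a ^ 2 := by linear_combination -eX
    linear_combination -4 * y ^ 2 * e1 +
      (ℓ * (2 * y) + 3 * x ^ 2 - 2 * a ^ 2 * x - 2 * a * b) * g - 4 * (3 * x - a ^ 2) * he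

/-! ## points of order three -/

/-- the point `(0, I b)` -/
lemma IsAb.P_nons {I : F} (hI : I ^ 2 = -1) : V.toAffine.Nonsingular 0 (I * b) :=
  hV.nons (by linear_combination b ^ 2 * hI)

lemma IsAb.P_three {I : F} (hI : I ^ 2 = -1) :
    (3 : ℤ) • (Affine.Point.some 0 (I * b) (hV.P_nons hI) : V.toAffine.Point) = 0 := by
  have hI0 : I ≠ 0 := by
    rintro rfl
    have : (1 : F) = 0 := by linear_combination hI
    exact one_ne_zero this
  have hy : I * b ≠ 0 := mul_ne_zero hI0 hV.hb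
  have hxy : ¬ ((0 : F) = 0 ∧ I * b = -(I * b)) := by
    rintro ⟨-, h⟩
    apply hy
    have : (2 : F) * (I * b) = 0 := by linear_combination h
    exact (mul_eq_zero.1 this).resolve_left two_ne_zero
  obtain ⟨ℓ, X, Y, h', e', eX, eY, hs⟩ := hV.add_ex (hV.P_nons hI) (hV.P_nons hI) hxy
  have hℓ : ℓ = a * I := by
    rcases hs with ⟨k1, -⟩ | ⟨-, -, -, k3⟩
    · exact absurd rfl k1
    · apply mul_left_cancel₀ (mul_ne_zero (two_ne_zero (α := F)) hy)
      linear_combination k3 - 2 * a * b * hI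
  have e2 : (Affine.Point.some 0 (I * b) (hV.P_nons hI) : V.toAffine.Point) +
      .some 0 (I * b) (hV.P_nons hI) = -.some 0 (I * b) (hV.P_nons hI) := by
    rw [hV.neg_eq (hV.P_nons hI) (hV.neg_nons (hV.P_nons hI)), e', Affine.Point.some.injEq]
    have hX : X = 0 := by
      rw [eX, hℓ]
      linear_combination a ^ 2 * hI
    refine ⟨hX, ?_⟩
    rw [eY, hX]
    ring
  generalize (Affine.Point.some 0 (I * b) (hV.P_nons hI) : V.toAffine.Point) = P at e2 ⊢
  have e3 : (3 : ℤ) • P = P + P + P := by abel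
  rw [e3, e2, neg_add_cancel]

variable (a b) in
omit hV [CharZero F] [DecidableEq F] in
/-- the cubic -/
def Cu (x : F) : F := 3 * x ^ 3 - 4 * a ^ 2 * x ^ 2 - 12 * a * b * x - 12 * b ^ 2

lemma IsAb.Cu_ne {x : F} (hC : Cu a b x = 0) : x ≠ 0 := by
  rintro rfl
  unfold Cu at hC
  have h : b ^ 2 = 0 := by linear_combination (-1 / 12) * hC
  exact hV.hb (pow_eq_zero_iff two_ne_zero |>.1 h)

lemma IsAb.Q_nons {s x : F} (hs : 3 * s ^ 2 = 1) (hC : Cu a b x = 0) :
    V.toAffine.Nonsingular x (s * (a * x + 3 * b)) := by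
  unfold Cu at hC
  exact hV.nons (by linear_combination (-1 / 3) * hC + ((a * x + 3 * b) ^ 2 / 3) * hs)

lemma IsAb.Q_ne {x : F} (hC : Cu a b x = 0) : a * x + 3 * b ≠ 0 := by
  intro h
  unfold Cu at hC
  have h6 : b ^ 2 * (4 * a ^ 3 + 27 * b) = 0 := by
    linear_combination (-a ^ 3 / 3) * hC + (a ^ 2 * x ^ 2 - 3 * a * x * b + 9 * b ^ 2 -
      (4 / 3) * a ^ 4 * x) * h
  exact mul_ne_zero (pow_ne_zero 2 hV.hb) hV.hd h6

lemma IsAb.Q_three {s x : F} (hs : 3 * s ^ 2 = 1) (hC : Cu a b x = 0) :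
    (3 : ℤ) • (Affine.Point.some x _ (hV.Q_nons hs hC) : V.toAffine.Point) = 0 := by
  have hs0 : s ≠ 0 := by
    rintro rfl
    have : (1 : F) = 0 := by linear_combination -hs
    exact one_ne_zero this
  have hy : s * (a * x + 3 * b) ≠ 0 := mul_ne_zero hs0 (hV.Q_ne hC)
  have hn := hV.Q_nons hs hC
  obtain ⟨y, hyd⟩ : ∃ y, y = s * (a * x + 3 * b) := ⟨_, rfl⟩
  simp only [← hyd] at hn hy ⊢
  have he := (hV.eqn _ _).1 hn.1
  have hxy : ¬ (x = x ∧ y = -y) := by
    rintro ⟨-, h⟩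
    apply hy
    have : (2 : F) * y = 0 := by linear_combination h
    exact (mul_eq_zero.1 this).resolve_left two_ne_zero
  obtain ⟨ℓ, X, Y, h', e', eX, eY, hs⟩ := hV.add_ex hn hn hxy
  have hX : X = x := by
    rcases hs with ⟨k1, -⟩ | ⟨-, -, -, g⟩
    · exact absurd rfl k1
    · have h1 : 4 * y ^ 2 * (X - x) = 0 := by
        rw [eX]
        unfold Cu at hC
        linear_combination -(4 * (3 * x - a ^ 2)) * he + (ℓ * (2 * y) + 3 * x ^ 2 - 2 * a ^ 2 * x -
          2 * a * b) * g - x * hC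
      have h2 := (mul_eq_zero.1 h1).resolve_left (mul_ne_zero (by norm_num) (pow_ne_zero 2 hy))
      linear_combination h2
  subst hX
  have h3 := hV.eq_or hn h'
  rw [← e'] at h3
  generalize (Affine.Point.some X y hn : V.toAffine.Point) = T at h3 e' ⊢
  have e3 : (3 : ℤ) • T = T + T + T := by abel
  rw [e3]
  rcases h3 with h3 | h3
  · have h4 : T = 0 := by simpa using h3
    rw [h4, add_zero, add_zero]
  · rw [h3, neg_add_cancel]

/-- the sum of `Q` and `P` -/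
lemma IsAb.sum {I s x : F} (hI : I ^ 2 = -1) (hs : 3 * s ^ 2 = 1) (hC : Cu a b x = 0) :
    ∃ (X : F) (hX : Cu a b X = 0),
      (Affine.Point.some x _ (hV.Q_nons hs hC) : V.toAffine.Point) +
        .some 0 (I * b) (hV.P_nons hI) = .some X _ (hV.Q_nons hs hX) := by
  have hx := hV.Cu_ne hC
  have hxy : ¬ (x = 0 ∧ s * (a * x + 3 * b) = -(I * b)) := fun h => hx h.1
  obtain ⟨ℓ, X, Y, h', e', eX, eY, hsl⟩ := hV.add_ex (hV.Q_nons hs hC) (hV.P_nons hI) hxy
  have hℓ : ℓ * x = s * (a * x + 3 * b) - I * b := by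
    rcases hsl with ⟨-, g⟩ | ⟨g, -⟩
    · linear_combination g
    · exact absurd g hx
  have hX2 : x ^ 2 * X = -2 * b * (a * (1 + s * I) * x + b * (1 + 3 * (s * I))) := by
    unfold Cu at hC
    have e1 : x ^ 2 * X = (ℓ * x) ^ 2 + a ^ 2 * x ^ 2 - x ^ 3 := by
      rw [eX]; ring
    rw [e1, hℓ]
    linear_combination (-1 / 3) * hC + ((a * x + 3 * b) ^ 2 / 3) * hs + b ^ 2 * hI
  have hY : Y = s * (a * X + 3 * b) := by
    have hx3 : x ^ 3 ≠ 0 := pow_ne_zero 3 hx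
    apply mul_left_cancel₀ hx3
    have e1 : x ^ 3 * Y = -(ℓ * x) * (x ^ 2 * X) + (ℓ * x) * x ^ 3 -
        s * (a * x + 3 * b) * x ^ 3 := by
      rw [eY]; ring
    have e2 : x ^ 3 * (s * (a * X + 3 * b)) = s * a * x * (x ^ 2 * X) + 3 * s * b * x ^ 3 := by
      ring
    rw [e1, e2, hX2, hℓ]
    unfold Cu at hC
    linear_combination -(s * b + b * I / 3) * hC + (-2 * s * a * b ^ 2 * x - 6 * s * b ^ 3) * hI +
      (6 * a * x * b ^ 2 * I + (4 / 3) * a ^ 2 * x ^ 2 * b * I + 6 * b ^ 3 * I) * hs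
  subst hY
  have hCX : Cu a b X = 0 := by
    have he := (hV.eqn _ _).1 h'.1
    unfold Cu
    linear_combination -3 * he + (a * X + 3 * b) ^ 2 * hs
  exact ⟨X, hCX, e'⟩

omit hV [DecidableEq F] in
/-- the sum of the roots -/
lemma vieta {x1 x2 x : F} (h1 : Cu a b x1 = 0) (h2 : Cu a b x2 = 0) (h : Cu a b x = 0)
    (h12 : x1 ≠ x2) (hx1 : x1 ≠ x) (hx2 : x2 ≠ x) : 3 * (x1 + x2 + x) = 4 * a ^ 2 := by
  unfold Cu at h1 h2 h
  have k1 : 3 * (x1 ^ 2 + x1 * x2 + x2 ^ 2) - 4 * a ^ 2 * (x1 + x2) - 12 * a * b = 0 := by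
    apply (mul_eq_zero.1 (?_ : (x1 - x2) * _ = 0)).resolve_left (sub_ne_zero.2 h12)
    linear_combination h1 - h2
  have k2 : 3 * (x1 ^ 2 + x1 * x + x ^ 2) - 4 * a ^ 2 * (x1 + x) - 12 * a * b = 0 := by
    apply (mul_eq_zero.1 (?_ : (x1 - x) * _ = 0)).resolve_left (sub_ne_zero.2 hx1)
    linear_combination h1 - h
  have k3 : 3 * (x1 + x2 + x) - 4 * a ^ 2 = 0 := by
    apply (mul_eq_zero.1 (?_ : (x2 - x) * _ = 0)).resolve_left (sub_ne_zero.2 hx2)
    linear_combination k1 - k2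
  linear_combination k3

/-- the three points -/
lemma IsAb.cover {I s x1 x : F} (hI : I ^ 2 = -1) (hs : 3 * s ^ 2 = 1) (h1 : Cu a b x1 = 0)
    (h : Cu a b x = 0) : ∃ u : ℤ,
    (Affine.Point.some x _ (hV.Q_nons hs h) : V.toAffine.Point) =
      .some x1 _ (hV.Q_nons hs h1) + u • .some 0 (I * b) (hV.P_nons hI) := by
  have hI' : (-I) ^ 2 = -1 := by rw [neg_sq]; exact hI
  obtain ⟨x2, h2, e2⟩ := hV.sum hI hs h1
  obtain ⟨x3, h3, e3⟩ := hV.sum hI' hs h1
  have hP3 := hV.P_three hI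
  have hPn : (Affine.Point.some 0 (-I * b) (hV.P_nons hI') : V.toAffine.Point) =
      -.some 0 (I * b) (hV.P_nons hI) := by
    rw [hV.neg_eq (hV.P_nons hI) (hV.neg_nons (hV.P_nons hI)), Affine.Point.some.injEq]
    exact ⟨rfl, by ring⟩
  rw [hPn] at e3
  have hP0 : (Affine.Point.some 0 (I * b) (hV.P_nons hI) : V.toAffine.Point) ≠ 0 :=
    Affine.Point.some_ne_zero _
  generalize (Affine.Point.some 0 (I * b) (hV.P_nons hI) : V.toAffine.Point) = P at *
  have hcong : ∀ {u v : F} (hu : Cu a b u = 0) (hv : Cu a b v = 0), u = v →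
      (Affine.Point.some u _ (hV.Q_nons hs hu) : V.toAffine.Point) =
        .some v _ (hV.Q_nons hs hv) := by
    intro u v hu hv huv
    subst huv
    rfl
  by_cases e1x : x = x1
  · exact ⟨0, by rw [zero_smul, add_zero]; exact hcong h h1 e1x⟩
  by_cases e2x : x = x2
  · exact ⟨1, by rw [one_smul, e2]; exact hcong h h2 e2x⟩
  have h12 : x1 ≠ x2 := by
    intro hh
    have := hcong h1 h2 hh
    rw [← e2] at this
    exact hP0 (by simpa using this)
  have h13 : x1 ≠ x3 := by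
    intro hh
    have := hcong h1 h3 hh
    rw [← e3] at this
    exact hP0 (by simpa using this)
  have h23 : x2 ≠ x3 := by
    intro hh
    have := hcong h2 h3 hh
    rw [← e2, ← e3] at this
    have k1 := add_left_cancel this
    have k2 : P + P = 0 := by
      nth_rw 1 [k1]
      exact neg_add_cancel P
    have k3 : (3 : ℤ) • P = P + P + P := by abel
    rw [k3, k2, zero_add] at hP3
    exact hP0 hP3
  have v1 := vieta h1 h2 h3 h12 h13 h23
  have v2 := vieta h1 h2 h h12 (Ne.symm e1x) (Ne.symm e2x)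
  have hx3 : x = x3 := by
    have : (3 : F) * (x - x3) = 0 := by linear_combination v2 - v1
    exact sub_eq_zero.1 ((mul_eq_zero.1 this).resolve_left three_ne_zero)
  refine ⟨-1, ?_⟩
  rw [neg_smul, one_smul, e3]
  exact hcong h h3 hx3

/-- all points of order three -/
lemma IsAb.gen {I s x1 : F} (hI : I ^ 2 = -1) (hs : 3 * s ^ 2 = 1) (h1 : Cu a b x1 = 0)
    {T : V.toAffine.Point} (hT : (3 : ℤ) • T = 0) : ∃ u v : ℤ,
    T = u • .some 0 (I * b) (hV.P_nons hI) + v • .some x1 _ (hV.Q_nons hs h1) := by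
  rcases T with _ | ⟨x, y, hn⟩
  · exact ⟨0, 0, by rw [zero_smul, zero_smul, add_zero]; rfl⟩
  rcases mul_eq_zero.1 (hV.three hn hT) with h2 | h2
  · subst h2
    rcases hV.eq_or (hV.P_nons hI) hn with h3 | h3
    · exact ⟨1, 0, by rw [zero_smul, add_zero, one_smul]; exact h3⟩
    · exact ⟨-1, 0, by rw [zero_smul, add_zero, neg_smul, one_smul]; exact h3⟩
  · obtain ⟨u, hu⟩ := hV.cover hI hs h1 h2
    rcases hV.eq_or (hV.Q_nons hs h2) hn with h3 | h3
    · refine ⟨u, 1, ?_⟩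
      rw [h3, hu, one_smul, add_comm]
    · refine ⟨-u, -1, ?_⟩
      rw [h3, hu, neg_smul, neg_smul, one_smul, neg_add, add_comm]

/-- independence -/
lemma IsAb.indep {I s x1 : F} (hI : I ^ 2 = -1) (hs : 3 * s ^ 2 = 1) (h1 : Cu a b x1 = 0)
    (u v : ℤ) (h : u • (Affine.Point.some 0 (I * b) (hV.P_nons hI) : V.toAffine.Point) +
      v • .some x1 _ (hV.Q_nons hs h1) = 0) : (3 : ℤ) ∣ u ∧ (3 : ℤ) ∣ v := by
  have hP3 := hV.P_three hI
  have hQ3 := hV.Q_three hs h1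
  have hx := hV.Cu_ne h1
  have hP0 : (Affine.Point.some 0 (I * b) (hV.P_nons hI) : V.toAffine.Point) ≠ 0 :=
    Affine.Point.some_ne_zero _
  have hQ0 : (Affine.Point.some x1 _ (hV.Q_nons hs h1) : V.toAffine.Point) ≠ 0 :=
    Affine.Point.some_ne_zero _
  have hQP : (Affine.Point.some x1 _ (hV.Q_nons hs h1) : V.toAffine.Point) ≠
      .some 0 (I * b) (hV.P_nons hI) := by
    intro e
    rw [Affine.Point.some.injEq] at e
    exact hx e.1
  have hQN : (Affine.Point.some x1 _ (hV.Q_nons hs h1) : V.toAffine.Point) ≠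
      -.some 0 (I * b) (hV.P_nons hI) := by
    rw [hV.neg_eq (hV.P_nons hI) (hV.neg_nons (hV.P_nons hI))]
    intro e
    rw [Affine.Point.some.injEq] at e
    exact hx e.1
  generalize (Affine.Point.some 0 (I * b) (hV.P_nons hI) : V.toAffine.Point) = P at *
  generalize (Affine.Point.some x1 _ (hV.Q_nons hs h1) : V.toAffine.Point) = Q at *
  -- reduce modulo three
  have red : ∀ (n : ℤ) (T : V.toAffine.Point), (3 : ℤ) • T = 0 →
      ((3 : ℤ) ∣ n ∧ n • T = 0) ∨ (¬ (3 : ℤ) ∣ n ∧ n • T = T) ∨ (¬ (3 : ℤ) ∣ n ∧ n • T = -T) := by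
    intro n T hT
    have e0 : n • T = (n % 3) • T := by
      conv_lhs => rw [← Int.mul_ediv_add_emod n 3]
      rw [add_smul, mul_comm, mul_smul, hT, smul_zero, zero_add]
    have hn : n % 3 = 0 ∨ n % 3 = 1 ∨ n % 3 = 2 := by omega
    rcases hn with hn | hn | hn
    · left
      exact ⟨Int.dvd_of_emod_eq_zero hn, by rw [e0, hn, zero_smul]⟩
    · right; left
      exact ⟨by omega, by rw [e0, hn, one_smul]⟩
    · right; right
      refine ⟨by omega, ?_⟩
      rw [e0, hn]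
      have : (3 : ℤ) • T = (2 : ℤ) • T + T := by abel
      rw [this] at hT
      exact eq_neg_of_add_eq_zero_left hT
  rcases red u P hP3 with ⟨d1, e1⟩ | ⟨d1, e1⟩ | ⟨d1, e1⟩ <;>
    rcases red v Q hQ3 with ⟨d2, e2⟩ | ⟨d2, e2⟩ | ⟨d2, e2⟩ <;> rw [e1, e2] at h
  · exact ⟨d1, d2⟩
  · rw [zero_add] at h
    exact absurd h hQ0
  · rw [zero_add, neg_eq_zero] at h
    exact absurd h hQ0
  · rw [add_zero] at h
    exact absurd h hP0
  · exact absurd (eq_neg_of_add_eq_zero_right h) hQN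
  · exact absurd (add_neg_eq_zero.1 h).symm hQP
  · rw [add_zero, neg_eq_zero] at h
    exact absurd h hP0
  · exact absurd (neg_add_eq_zero.1 h).symm hQP
  · exfalso
    apply hQN
    rw [← neg_add, neg_eq_zero] at h
    exact eq_neg_of_add_eq_zero_right h

end Pool.Agent.W2helper3.RG
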