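import Pool.Agent.W2helper2.RG.Stm1
import Pool.Agent.W2helper3.RG.Ab
import Pool.Agent.Y715.T.Red
import Pool.Agent.W902.TB.Gen

/-!
# Piece NOS of project RG: no ramification at the places of good reduction
-/

set_option autoImplicit false
set_option linter.unusedSectionVars false
set_option linter.unusedVariables false

namespace Pool.Agent.W2helper3.RG

open WeierstrassCurve Pool.Agent.W2helper2.RG
open Pool.Agent.TH841.SH.D (Gal Pt act)
open Pool.Agent.Y715.T.Red (add_le add_lt sub_le sub_lt eq_of_lt mul_le mul_lt two_le three_le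
  pow_le le_of_pow lt_of_pow int_le)

section red

variable {F : Type*} [NormedField F] [IsUltrametricDist F] [CharZero F] [DecidableEq F]

/-- sums of large abscissas -/
lemma large {a b x1 x2 X ℓ ν : F} (ha : ‖a‖ ≤ 1) (hb : ‖b‖ ≤ 1) (h1 : 1 < ‖x1‖) (h3 : 1 < ‖x2‖)
    (e1 : X + x1 + x2 = ℓ ^ 2 + a ^ 2)
    (e2 : x1 * x2 + X * (x1 + x2) = -(2 * (a * b) + 2 * (ℓ * ν)))
    (e3 : x1 * x2 * X = b ^ 2 + ν ^ 2) : 1 < ‖X‖ := by
  by_contra hX
  push Not at hX
  set A := ‖x1‖ * ‖x2‖ with hA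
  set B := max ‖x1‖ ‖x2‖ with hB
  have hB1 : 1 < B := lt_max_of_lt_left h1
  have hAB : B < A := by
    rw [hB, hA, max_lt_iff]
    constructor
    · nlinarith
    · nlinarith
  have hA1 : 1 < A := hB1.trans hAB
  have hsum : ‖x1 + x2‖ ≤ B := add_le (le_max_left _ _) (le_max_right _ _)
  have hℓ : ‖ℓ‖ ^ 2 ≤ B := by
    rw [← norm_pow]
    have e : ℓ ^ 2 = X + (x1 + x2) - a ^ 2 := by linear_combination -e1
    rw [e]
    exact sub_le (add_le (hX.trans hB1.le) hsum) ((pow_le 2 ha).trans hB1.le)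
  have hν : ‖ν‖ ^ 2 ≤ A := by
    rw [← norm_pow]
    have e : ν ^ 2 = x1 * x2 * X - b ^ 2 := by linear_combination -e3
    rw [e]
    refine sub_le ?_ ((pow_le 2 hb).trans hA1.le)
    rw [norm_mul, norm_mul]
    calc ‖x1‖ * ‖x2‖ * ‖X‖ ≤ ‖x1‖ * ‖x2‖ * 1 := by gcongr
      _ = A := mul_one _
  have h4 : ‖x1 * x2 + X * (x1 + x2)‖ = A := by
    rw [eq_of_lt, norm_mul]
    rw [norm_mul, norm_mul]
    calc ‖X‖ * ‖x1 + x2‖ ≤ 1 * B := by gcongr
      _ = B := one_mul B
      _ < A := hAB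
  have h5 : A ≤ ‖ℓ‖ * ‖ν‖ := by
    by_contra hcon
    push Not at hcon
    have h6 : ‖x1 * x2 + X * (x1 + x2)‖ < A := by
      rw [e2, norm_neg]
      refine add_lt ((mul_le two_le (mul_le ha hb)).trans_lt hA1) ?_
      rw [norm_mul, norm_mul]
      calc ‖(2 : F)‖ * (‖ℓ‖ * ‖ν‖) ≤ 1 * (‖ℓ‖ * ‖ν‖) :=
            mul_le_mul_of_nonneg_right two_le (by positivity)
        _ = ‖ℓ‖ * ‖ν‖ := one_mul _
        _ < A := hcon
    rw [h4] at h6
    exact lt_irrefl _ h6
  have h7 : A ^ 2 ≤ B * A := by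
    calc A ^ 2 ≤ (‖ℓ‖ * ‖ν‖) ^ 2 := by gcongr
      _ = ‖ℓ‖ ^ 2 * ‖ν‖ ^ 2 := mul_pow _ _ _
      _ ≤ B * A := mul_le_mul hℓ hν (by positivity) (by linarith)
  nlinarith

variable {V : WeierstrassCurve F} {a b : F} (hV : IsAb V a b)

/-- the kernel of reduction -/
noncomputable def E1 (ha : ‖a‖ ≤ 1) (hb : ‖b‖ = 1) : AddSubgroup V.toAffine.Point where
  carrier := {P | P = 0 ∨ ∃ (x y : F) (h : V.toAffine.Nonsingular x y), P = .some x y h ∧ 1 < ‖x‖}
  zero_mem' := Or.inl rfl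
  add_mem' := by
    rintro P Q (rfl | ⟨x1, y1, h1, rfl, hx1⟩) (rfl | ⟨x2, y2, h3, rfl, hx2⟩)
    · left
      exact add_zero 0
    · right
      exact ⟨x2, y2, h3, zero_add _, hx2⟩
    · right
      exact ⟨x1, y1, h1, add_zero _, hx1⟩
    · by_cases hxy : x1 = x2 ∧ y1 = -y2
      · left
        exact hV.add_opp h1 h3 hxy
      · right
        obtain ⟨ℓ, X, Y, h, e, eX, eY, hs⟩ := hV.add_ex h1 h3 hxy
        obtain ⟨-, s2, s3⟩ := hV.symm_fn ((hV.eqn _ _).1 h1.1) ((hV.eqn _ _).1 h3.1) eX hs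
        exact ⟨X, Y, h, e, large ha hb.le hx1 hx2 (by rw [eX]; ring) s2 s3⟩
  neg_mem' := by
    rintro P (rfl | ⟨x, y, h, rfl, hx⟩)
    · left
      exact neg_zero
    · right
      exact ⟨x, -y, hV.neg_nons h, hV.neg_eq h (hV.neg_nons h), hx⟩

variable {ha : ‖a‖ ≤ 1} {hb : ‖b‖ = 1}

lemma mem_E1 {P : V.toAffine.Point} : P ∈ E1 hV ha hb ↔
    P = 0 ∨ ∃ (x y : F) (h : V.toAffine.Nonsingular x y), P = .some x y h ∧ 1 < ‖x‖ := Iff.rfl

lemma some_mem {x y : F} (h : V.toAffine.Nonsingular x y) :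
    (Affine.Point.some x y h : V.toAffine.Point) ∈ E1 hV ha hb ↔ 1 < ‖x‖ := by
  rw [mem_E1]
  constructor
  · rintro (h1 | ⟨x', y', h', e, hx⟩)
    · exact absurd h1 (Affine.Point.some_ne_zero _)
    · rw [Affine.Point.some.injEq] at e
      rw [e.1]
      exact hx
  · intro hx
    exact Or.inr ⟨x, y, h, rfl, hx⟩

variable (h2 : ‖(2 : F)‖ = 1) (h3 : ‖(3 : F)‖ = 1) (hd : ‖4 * a ^ 3 + 27 * b‖ = 1)

include hV h2 h3 hd in
/-- points with the same reduction -/
theorem diff_mem {x y x' y' : F} (h : V.toAffine.Nonsingular x y)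
    (h' : V.toAffine.Nonsingular x' y') (hx : ‖x‖ ≤ 1) (hy : ‖y‖ ≤ 1) (hxx : ‖x' - x‖ < 1)
    (hyy : ‖y' - y‖ < 1) :
    (Affine.Point.some x' y' h' : V.toAffine.Point) - .some x y h ∈ E1 hV ha hb := by
  have h0 := hV.neg_nons h
  rw [sub_eq_add_neg, hV.neg_eq h h0]
  by_cases hxy : x' = x ∧ y' = -(-y)
  · rw [hV.add_opp h' h0 hxy]
    exact zero_mem _
  obtain ⟨ℓ, X, Y, h4, e, eX, eY, hs⟩ := hV.add_ex h' h0 hxy
  have e1 := (hV.eqn _ _).1 h'.1
  have e2 := (hV.eqn _ _).1 h0.1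
  obtain ⟨s1, -, -⟩ := hV.symm_fn e1 e2 eX hs
  rw [e, some_mem]
  by_contra hX
  push Not at hX
  have hx' : ‖x'‖ ≤ 1 := by
    have e : x' = (x' - x) + x := by ring
    rw [e]
    exact add_le hxx.le hx
  have hℓ : ‖ℓ‖ ≤ 1 := by
    apply Pool.Agent.Y715.T.Red.sq_le
    have e3 : ℓ ^ 2 = X + x' + x - a ^ 2 := by rw [eX]; ring
    rw [e3]
    exact sub_le (add_le (add_le hX hx') hx) (pow_le 2 ha)
  -- `y` is small
  have hysm : ‖y‖ < 1 := by
    have h5 : ‖2 * y‖ < 1 := by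
      rcases hs with ⟨-, g⟩ | ⟨-, g, -⟩
      · have e4 : 2 * y = ℓ * (x' - x) - (y' - y) := by rw [g]; ring
        rw [e4]
        exact sub_lt (mul_lt hℓ hxx) hyy
      · have e4 : 2 * y = -(y' - y) := by rw [g]; ring
        rw [e4, norm_neg]
        exact hyy
    rwa [norm_mul, h2, one_mul] at h5
  have hf : ‖x ^ 3 - (a * x + b) ^ 2‖ < 1 := by
    rw [← e2, neg_sq, sq]
    exact mul_lt hysm.le hysm
  have hf' : ‖3 * x ^ 2 - 2 * a * (a * x + b)‖ < 1 := by
    have e4 : 3 * x ^ 2 - 2 * a * (a * x + b) = ℓ * (y' - y) - (x' + 2 * x - a ^ 2) * (x' - x) := by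
      linear_combination -s1
    rw [e4]
    exact sub_lt (mul_lt hℓ hyy) (mul_lt (sub_le (add_le hx' (mul_le two_le hx)) (pow_le 2 ha)) hxx)
  have hw : ‖(a * x + b) * (a * x + 3 * b)‖ < 1 := by
    have e4 : (a * x + b) * (a * x + 3 * b) = x * (3 * x ^ 2 - 2 * a * (a * x + b)) -
        3 * (x ^ 3 - (a * x + b) ^ 2) := by ring
    rw [e4]
    exact sub_lt (mul_lt hx hf') (mul_lt three_le hf)
  have hax : ‖a * x‖ ≤ 1 := mul_le ha hx
  have hw1 : ‖a * x + b‖ ≤ 1 := add_le hax hb.le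
  have hw3 : ‖a * x + 3 * b‖ ≤ 1 := add_le hax (mul_le three_le hb.le)
  by_cases hc : ‖a * x + b‖ < 1
  · have h6 : ‖x ^ 3‖ < 1 := by
      have e4 : x ^ 3 = (x ^ 3 - (a * x + b) ^ 2) + (a * x + b) * (a * x + b) := by ring
      rw [e4]
      exact add_lt hf (mul_lt hw1 hc)
    have h7 : ‖x‖ < 1 := lt_of_pow three_ne_zero h6
    have h8 : ‖b‖ < 1 := by
      have e4 : b = (a * x + b) - a * x := by ring
      rw [e4]
      exact sub_lt hc (mul_lt ha h7)
    rw [hb] at h8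
    exact lt_irrefl _ h8
  · have hc1 : ‖a * x + b‖ = 1 := le_antisymm hw1 (not_lt.1 hc)
    rw [norm_mul, hc1, one_mul] at hw
    have h6 : ‖x ^ 3 - 4 * b ^ 2‖ < 1 := by
      have e4 : x ^ 3 - 4 * b ^ 2 = (x ^ 3 - (a * x + b) ^ 2) +
          (a * x - b) * (a * x + 3 * b) := by ring
      rw [e4]
      exact add_lt hf (mul_lt (sub_le hax hb.le) hw)
    have h7 : ‖b ^ 2 * (4 * a ^ 3 + 27 * b)‖ < 1 := by
      have e4 : b ^ 2 * (4 * a ^ 3 + 27 * b) =
          (a ^ 2 * x ^ 2 - 3 * (a * x * b) + 9 * b ^ 2) * (a * x + 3 * b) -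
          a ^ 3 * (x ^ 3 - 4 * b ^ 2) := by ring
      rw [e4]
      have h9 : ‖(9 : F)‖ ≤ 1 := by exact_mod_cast int_le (F := F) 9
      refine sub_lt (mul_lt ?_ hw) (mul_lt (pow_le 3 ha) h6)
      exact add_le (sub_le (mul_le (pow_le 2 ha) (pow_le 2 hx))
        (mul_le three_le (mul_le hax hb.le))) (mul_le h9 (pow_le 2 hb.le))
    rw [norm_mul, hd, mul_one, norm_pow, hb, one_pow] at h7
    exact lt_irrefl _ h7

include hV h3 in
/-- there are no points of order three in the kernel of reduction -/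
theorem tor_E1 {P : V.toAffine.Point} (hP : P ∈ E1 hV ha hb) (h : (3 : ℤ) • P = 0) : P = 0 := by
  rcases (mem_E1 hV).1 hP with rfl | ⟨x, y, hn, rfl, hx⟩
  · rfl
  exfalso
  have hx0 : x ≠ 0 := by
    rintro rfl
    rw [norm_zero] at hx
    linarith
  have h4 := (mul_eq_zero.1 (hV.three hn h)).resolve_left hx0
  have h5 : 3 * x ^ 3 = 4 * a ^ 2 * x ^ 2 + 12 * (a * b) * x + 12 * b ^ 2 := by
    linear_combination h4
  have h6 := congrArg norm h5
  rw [norm_mul, h3, one_mul, norm_pow] at h6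
  have hn4 : ‖(4 : F)‖ ≤ 1 := by exact_mod_cast int_le (F := F) 4
  have hn12 : ‖(12 : F)‖ ≤ 1 := by exact_mod_cast int_le (F := F) 12
  have hx1 : ‖x‖ ≤ ‖x‖ ^ 2 := by nlinarith
  have hx2 : 1 ≤ ‖x‖ ^ 2 := by nlinarith
  have h7 : ‖4 * a ^ 2 * x ^ 2 + 12 * (a * b) * x + 12 * b ^ 2‖ ≤ ‖x‖ ^ 2 := by
    refine add_le (add_le ?_ ?_) ?_
    · rw [norm_mul, norm_pow x]
      calc ‖4 * a ^ 2‖ * ‖x‖ ^ 2 ≤ 1 * ‖x‖ ^ 2 :=
            mul_le_mul_of_nonneg_right (mul_le hn4 (pow_le 2 ha)) (by positivity)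
        _ = ‖x‖ ^ 2 := one_mul _
    · rw [norm_mul]
      calc ‖12 * (a * b)‖ * ‖x‖ ≤ 1 * ‖x‖ :=
            mul_le_mul_of_nonneg_right (mul_le hn12 (mul_le ha hb.le)) (by positivity)
        _ = ‖x‖ := one_mul _
        _ ≤ ‖x‖ ^ 2 := hx1
    · exact (mul_le hn12 (pow_le 2 hb.le)).trans hx2
  rw [← h6] at h7
  nlinarith

include hV h3 in
/-- there are no points of order a power of three in the kernel of reduction -/
theorem tor_pow (n : ℕ) {P : V.toAffine.Point} (hP : P ∈ E1 hV ha hb)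
    (h : (3 ^ n : ℤ) • P = 0) : P = 0 := by
  induction n generalizing P with
  | zero => simpa using h
  | succ n ih =>
    refine tor_E1 hV h3 (ha := ha) (hb := hb) hP (ih ((E1 hV ha hb).zsmul_mem hP 3) ?_)
    rw [smul_smul, ← pow_succ]
    exact h

end red

lemma act_act {k : Type} [Field k] (W : WeierstrassCurve k) {F L M : Type} [Field F] [Field L]
    [Field M] [Algebra k F] [Algebra k L] [Algebra k M] (f : F →ₐ[k] L) (g : L →ₐ[k] M)
    (T : Pt W F) : act W g (act W f T) = act W (g.comp f) T := by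
  rcases T with _ | ⟨x, y, h⟩ <;> rfl

lemma act_inj {k : Type} [Field k] (W : WeierstrassCurve k) {F L : Type} [Field F] [Field L]
    [Algebra k F] [Algebra k L] (f : F →ₐ[k] L) : Function.Injective (act W f) :=
  @Affine.Point.map_injective k k F L _ _ _ _ W (Classical.decEq F) (Classical.decEq L)
    _ _ _ _ _ _ _ f

lemma norm_nat {p : ℕ} [Fact p.Prime] {q : ℕ} (hq : q.Prime) (h : p ≠ q) :
    ‖(q : PadicAlgCl p)‖ = 1 := by
  have h1 : ((q : ℚ_[p]) : PadicAlgCl p) = (q : PadicAlgCl p) := map_natCast (algebraMap ℚ_[p] _) q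
  have h2 : ‖(q : ℚ_[p])‖ = 1 := by
    rw [Padic.norm_natCast_eq_one_iff]
    exact (Nat.coprime_primes Fact.out hq).2 h
  rw [← h1, PadicAlgCl.norm_extends, h2]

/-- PIECE NOS -/
theorem nos : P_NOS := by
  intro k _ _ a b p _ hp2 hp3 ι ha hb hd σ hσ n T hT
  obtain ⟨τ, hτ, hin⟩ := hσ
  let : Algebra k (PadicAlgCl p) := (ι.comp (algebraMap k (AlgebraicClosure k))).toAlgebra
  have hCZ : CharZero (PadicAlgCl p) := charZero_of_injective_algebraMap
    (algebraMap ℚ_[p] (PadicAlgCl p)).injective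
  let ι' : AlgebraicClosure k →ₐ[k] PadicAlgCl p := { ι with commutes' := fun _ => rfl }
  let τ' : PadicAlgCl p →ₐ[k] PadicAlgCl p :=
    { (τ : PadicAlgCl p →+* PadicAlgCl p) with
      commutes' := fun r => by
        show τ (ι (algebraMap k _ r)) = ι (algebraMap k _ r)
        rw [hτ, σ.commutes] }
  have hτ' : ∀ z, τ' z = τ z := fun _ => rfl
  let := Classical.decEq (PadicAlgCl p)
  have hb0 : b ≠ 0 := by
    rintro rfl
    rw [map_zero, map_zero, norm_zero] at hb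
    exact zero_ne_one hb
  have hd0 : 4 * a ^ 3 + 27 * b ≠ 0 := by
    intro h
    rw [h, map_zero, map_zero, norm_zero] at hd
    exact zero_ne_one hd
  set α : PadicAlgCl p := algebraMap k (PadicAlgCl p) a with hα
  set β : PadicAlgCl p := algebraMap k (PadicAlgCl p) b with hβ
  have hV : IsAb ((Eab a b).baseChange (PadicAlgCl p)) α β := by
    refine ⟨?_, ?_, ?_, ?_, ?_, ?_, ?_⟩
    · show algebraMap k (PadicAlgCl p) 0 = 0
      exact map_zero _
    · show algebraMap k (PadicAlgCl p) (-a ^ 2) = _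
      rw [map_neg, map_pow]
    · show algebraMap k (PadicAlgCl p) 0 = 0
      exact map_zero _
    · show algebraMap k (PadicAlgCl p) (-2 * a * b) = _
      simp only [map_neg, map_mul, map_ofNat]
      rfl
    · show algebraMap k (PadicAlgCl p) (-b ^ 2) = _
      rw [map_neg, map_pow]
    · exact (map_ne_zero _).2 hb0
    · have e : 4 * α ^ 3 + 27 * β = algebraMap k (PadicAlgCl p) (4 * a ^ 3 + 27 * b) := by
        simp only [map_add, map_mul, map_pow, map_ofNat]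
        rfl
      rw [e]
      exact (map_ne_zero _).2 hd0
  have ha' : ‖α‖ ≤ 1 := ha
  have hb' : ‖β‖ = 1 := hb
  have hd' : ‖4 * α ^ 3 + 27 * β‖ = 1 := by
    have e : 4 * α ^ 3 + 27 * β = ι (algebraMap k _ (4 * a ^ 3 + 27 * b)) := by
      simp only [map_add, map_mul, map_pow, map_ofNat]
      rfl
    rw [e]
    exact hd
  have h2 : ‖(2 : PadicAlgCl p)‖ = 1 := by exact_mod_cast norm_nat Nat.prime_two hp2
  have h3 : ‖(3 : PadicAlgCl p)‖ = 1 := by exact_mod_cast norm_nat Nat.prime_three hp3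
  -- the inertia group acts trivially on the reduction
  have key : ∀ P : Pt (Eab a b) (PadicAlgCl p), act (Eab a b) τ' P - P ∈ E1 hV ha' hb' := by
    intro P
    rcases P with _ | ⟨x, y, hn⟩
    · show act (Eab a b) τ' 0 - 0 ∈ _
      rw [map_zero, sub_zero]
      exact zero_mem _
    · have he := (hV.eqn x y).1 hn.1
      obtain ⟨h', e'⟩ : ∃ h' : ((Eab a b).baseChange (PadicAlgCl p)).toAffine.Nonsingular (τ x) (τ y),
          act (Eab a b) τ' (Affine.Point.some x y hn) = Affine.Point.some (τ x) (τ y) h' :=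
        ⟨_, rfl⟩
      by_cases hx : ‖x‖ ≤ 1
      · have hy : ‖y‖ ≤ 1 := by
          apply Pool.Agent.Y715.T.Red.sq_le
          rw [he]
          exact sub_le (pow_le 3 hx) (pow_le 2 (add_le (mul_le ha' hx) hb'.le))
        have h4 := diff_mem (ha := ha') (hb := hb') hV h2 h3 hd' hn h' hx hy (hin x hx) (hin y hy)
        rw [← e'] at h4
        exact h4
      · push Not at hx
        have h4 : (Affine.Point.some x y hn : ((Eab a b).baseChange (PadicAlgCl p)).toAffine.Point) ∈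
          E1 hV ha' hb' := (some_mem hV hn).2 hx
        have h5 : (Affine.Point.some (τ x) (τ y) h' :
            ((Eab a b).baseChange (PadicAlgCl p)).toAffine.Point) ∈ E1 hV ha' hb' := by
          rw [some_mem, Pool.Agent.W902.TB.norm_alg]
          exact hx
        rw [← e'] at h5
        exact sub_mem h5 h4
  have hcomp : act (Eab a b) ι' (act (Eab a b) σ.toAlgHom T) =
      act (Eab a b) τ' (act (Eab a b) ι' T) := by
    rw [act_act, act_act]
    congr 1
    congr 1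
    ext x
    exact (hτ x).symm
  apply act_inj (Eab a b) ι'
  rw [hcomp]
  refine sub_eq_zero.1 (tor_pow hV h3 (ha := ha') (hb := hb') n (key _) ?_)
  have hT' : (3 ^ n : ℤ) • act (Eab a b) ι' T = 0 := by
    rw [← map_zsmul, hT, map_zero]
  have e : (3 ^ n : ℤ) • (act (Eab a b) τ' (act (Eab a b) ι' T) - act (Eab a b) ι' T) = 0 := by
    rw [smul_sub, ← map_zsmul, hT', map_zero, sub_zero]
  exact e

end Pool.Agent.W2helper3.RG
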