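import Pool.Agent.W2helper2.RG.Stm1
import Pool.Agent.W2helper3.RG.Ab
import Pool.Agent.Y700.VC
import Pool.Agent.TH954.STor

/-!
# Piece T2 of project RG: the points of order three
-/

set_option autoImplicit false
set_option linter.unusedSectionVars false

namespace Pool.Agent.W2helper3.RG

open WeierstrassCurve Pool.Agent.W2helper2.RG
open Pool.Agent.TH841.SH.D (Gal Pt act)

lemma isAb_base {k : Type} [Field k] [CharZero k] {a b : k} (hb : b ≠ 0)
    (hd : 4 * a ^ 3 + 27 * b ≠ 0) (M : Type) [Field M] [Algebra k M] :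
    IsAb ((Eab a b).baseChange M) (algebraMap k M a) (algebraMap k M b) where
  h1 := by
    show algebraMap k M 0 = 0
    exact map_zero _
  h2 := by
    show algebraMap k M (-a ^ 2) = _
    rw [map_neg, map_pow]
  h3 := by
    show algebraMap k M 0 = 0
    exact map_zero _
  h4 := by
    show algebraMap k M (-2 * a * b) = _
    simp only [map_neg, map_mul, map_ofNat]
  h6 := by
    show algebraMap k M (-b ^ 2) = _
    rw [map_neg, map_pow]
  hb := (map_ne_zero _).2 hb
  hd := by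
    have e : 4 * (algebraMap k M a) ^ 3 + 27 * (algebraMap k M b) =
        algebraMap k M (4 * a ^ 3 + 27 * b) := by
      simp only [map_add, map_mul, map_pow, map_ofNat]
    rw [e]
    exact (map_ne_zero _).2 hd

lemma act_some {k : Type} [Field k] (W : WeierstrassCurve k) {F L : Type} [Field F] [Field L]
    [Algebra k F] [Algebra k L] (φ : F →ₐ[k] L) {x y : F}
    (h : (W.baseChange F).toAffine.Nonsingular x y) :
    ∃ h' : (W.baseChange L).toAffine.Nonsingular (φ x) (φ y),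
      act W φ (Affine.Point.some x y h : (W.baseChange F).toAffine.Point) =
        (Affine.Point.some (φ x) (φ y) h' : (W.baseChange L).toAffine.Point) :=
  ⟨_, rfl⟩

/-- the short form -/
lemma vr {k : Type} [Field k] [CharZero k] (a b : k) :
    Pool.Agent.Y700.VR (Eab a b) (Pool.Agent.TH942.sw (-2 * a * b - a ^ 4 / 3)
      (-b ^ 2 - 2 * a ^ 3 * b / 3 - 2 * a ^ 6 / 27)) 1 (a ^ 2 / 3) 0 0 where
  u0 := one_ne_zero
  e1 := by simp [Eab, Pool.Agent.TH942.sw]
  e2 := by
    show 1 ^ 2 * (0 : k) = -a ^ 2 - 0 * 0 + 3 * (a ^ 2 / 3) - 0 ^ 2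
    ring
  e3 := by
    show 1 ^ 3 * (0 : k) = 0 + a ^ 2 / 3 * 0 + 2 * 0
    ring
  e4 := by
    show 1 ^ 4 * (-2 * a * b - a ^ 4 / 3) = -2 * a * b - 0 * 0 + 2 * (a ^ 2 / 3) * (-a ^ 2) -
      (0 + a ^ 2 / 3 * 0) * 0 + 3 * (a ^ 2 / 3) ^ 2 - 2 * 0 * 0
    ring
  e6 := by
    show 1 ^ 6 * (-b ^ 2 - 2 * a ^ 3 * b / 3 - 2 * a ^ 6 / 27) = -b ^ 2 +
      a ^ 2 / 3 * (-2 * a * b) + (a ^ 2 / 3) ^ 2 * (-a ^ 2) + (a ^ 2 / 3) ^ 3 - 0 * 0 - 0 ^ 2 -
      a ^ 2 / 3 * 0 * 0
    ring

lemma surj3 {k : Type} [Field k] [CharZero k] {a b : k} (hb : b ≠ 0)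
    (hd : 4 * a ^ 3 + 27 * b ≠ 0) (T : Pt (Eab a b) (AlgebraicClosure k)) :
    ∃ S, (3 : ℤ) • S = T := by
  set A : k := -2 * a * b - a ^ 4 / 3 with hA
  set B : k := -b ^ 2 - 2 * a ^ 3 * b / 3 - 2 * a ^ 6 / 27 with hB
  have hD : 4 * A ^ 3 + 27 * B ^ 2 ≠ 0 := by
    have e : 4 * A ^ 3 + 27 * B ^ 2 = b ^ 3 * (4 * a ^ 3 + 27 * b) := by
      rw [hA, hB]
      ring
    rw [e]
    exact mul_ne_zero (pow_ne_zero 3 hb) hd
  have : CharZero (AlgebraicClosure k) := charZero_of_injective_algebraMap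
    (algebraMap k (AlgebraicClosure k)).injective
  have hΔ : ((Pool.Agent.TH942.sw A B).map (algebraMap k (AlgebraicClosure k))).Δ ≠ 0 := by
    rw [WeierstrassCurve.map_Δ, Pool.Agent.TH942.sw_Δ]
    exact (map_ne_zero _).2 (mul_ne_zero (by norm_num) hD)
  let := Classical.decEq (AlgebraicClosure k)
  let φ := ((vr a b).map (algebraMap k (AlgebraicClosure k))).equiv hΔ
  obtain ⟨S, hS⟩ := Pool.Agent.TH954.exists_nsmul_base hD (AlgebraicClosure k) (n := 3) (by norm_num)
    (φ.symm T)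
  refine ⟨φ S, ?_⟩
  have e1 : φ ((3 : ℕ) • S) = T := by
    rw [← φ.apply_symm_apply T]
    congr 1
  have e2 : φ ((3 : ℕ) • S) = (3 : ℕ) • φ S := map_nsmul φ 3 S
  have e3 : (3 : ℤ) • φ S = (3 : ℕ) • φ S := natCast_zsmul (φ S) 3
  exact (e3.trans e2.symm).trans e1

lemma exists_root {F : Type*} [Field F] [CharZero F] [IsAlgClosed F] (a b : F) :
    ∃ x, Cu a b x = 0 := by
  let p : Polynomial F := Polynomial.C 3 * Polynomial.X ^ 3 +
    Polynomial.C (-4 * a ^ 2) * Polynomial.X ^ 2 + Polynomial.C (-12 * a * b) * Polynomial.X +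
    Polynomial.C (-12 * b ^ 2)
  have hp : p.degree = 3 := Polynomial.degree_cubic three_ne_zero
  obtain ⟨x, hx⟩ := IsAlgClosed.exists_root p (by rw [hp]; norm_num)
  refine ⟨x, ?_⟩
  have h1 : Polynomial.eval x p = 0 := hx
  simp only [p, Polynomial.eval_add, Polynomial.eval_mul, Polynomial.eval_pow,
    Polynomial.eval_X, Polynomial.eval_C] at h1
  unfold Cu
  linear_combination h1

/-- PIECE T2 -/
theorem t2 : P_T2 := by
  intro k _ _ a b hb hd I θ hI hθ
  refine ⟨surj3 hb hd, ?_⟩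
  have : CharZero (AlgebraicClosure k) := charZero_of_injective_algebraMap
    (algebraMap k (AlgebraicClosure k)).injective
  let := Classical.decEq (AlgebraicClosure k)
  set α := algebraMap k (AlgebraicClosure k) a with hα
  set β := algebraMap k (AlgebraicClosure k) b with hβ
  have hV : IsAb ((Eab a b).baseChange (AlgebraicClosure k)) α β := isAb_base hb hd _
  have hθ0 : θ ≠ 0 := by
    rintro rfl
    have : (3 : AlgebraicClosure k) = 0 := by linear_combination hθ
    exact three_ne_zero this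
  obtain ⟨s, hs⟩ : ∃ s, s = I / θ := ⟨_, rfl⟩
  have hs2 : 3 * s ^ 2 = 1 := by
    rw [hs, div_pow, hI, hθ]
    norm_num
  obtain ⟨x1, h1⟩ := exists_root α β
  set P : Pt (Eab a b) (AlgebraicClosure k) := Affine.Point.some 0 (I * β) (hV.P_nons hI) with hP
  set Q : Pt (Eab a b) (AlgebraicClosure k) :=
    Affine.Point.some x1 (s * (α * x1 + 3 * β)) (hV.Q_nons hs2 h1) with hQ
  refine ⟨P, Q, hV.P_three hI, hV.Q_three hs2 h1, fun T hT => hV.gen hI hs2 h1 hT,
    fun u v h => hV.indep hI hs2 h1 u v h, fun σ => ?_⟩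
  have hσα : σ α = α := σ.commutes a
  have hσβ : σ β = β := σ.commutes b
  have hCσ : Cu α β (σ x1) = 0 := by
    have e := congrArg σ h1
    unfold Cu at e ⊢
    simp only [map_sub, map_mul, map_pow, map_ofNat, hσα, hσβ, map_zero] at e
    exact e
  have hPn : -P = Affine.Point.some 0 (-(I * β)) (hV.neg_nons (hV.P_nons hI)) :=
    hV.neg_eq (hV.P_nons hI) _
  refine ⟨fun h => ?_, fun h => ?_, fun h2 h => ?_, fun h2 h => ?_⟩
  · obtain ⟨h', e⟩ := act_some (Eab a b) σ.toAlgHom (hV.P_nons hI)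
    refine e.trans ?_
    rw [hP]
    show (Affine.Point.some _ _ _ : ((Eab a b).baseChange (AlgebraicClosure k)).toAffine.Point) =
      Affine.Point.some _ _ _
    rw [Affine.Point.some.injEq]
    refine ⟨map_zero σ, ?_⟩
    show σ (I * β) = I * β
    rw [map_mul, h, hσβ]
  · obtain ⟨h', e⟩ := act_some (Eab a b) σ.toAlgHom (hV.P_nons hI)
    refine e.trans ?_
    rw [hPn]
    show (Affine.Point.some _ _ _ : ((Eab a b).baseChange (AlgebraicClosure k)).toAffine.Point) =
      Affine.Point.some _ _ _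
    rw [Affine.Point.some.injEq]
    refine ⟨map_zero σ, ?_⟩
    show σ (I * β) = -(I * β)
    rw [map_mul, h, hσβ]
    ring
  · obtain ⟨u, hu⟩ := hV.cover hI hs2 h1 hCσ
    refine ⟨u, ?_⟩
    obtain ⟨h', e⟩ := act_some (Eab a b) σ.toAlgHom (hV.Q_nons hs2 h1)
    refine e.trans ?_
    refine Eq.trans ?_ hu
    show (Affine.Point.some _ _ _ : ((Eab a b).baseChange (AlgebraicClosure k)).toAffine.Point) =
      Affine.Point.some _ _ _
    rw [Affine.Point.some.injEq]
    refine ⟨rfl, ?_⟩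
    show σ (s * (α * x1 + 3 * β)) = s * (α * σ x1 + 3 * β)
    rw [hs]
    simp only [map_mul, map_div₀, map_add, map_ofNat, h, h2, hσα, hσβ]
  · obtain ⟨u, hu⟩ := hV.cover hI hs2 h1 hCσ
    refine ⟨-u, ?_⟩
    obtain ⟨h', e⟩ := act_some (Eab a b) σ.toAlgHom (hV.Q_nons hs2 h1)
    refine e.trans ?_
    have e2 : -Q + (-u) • P = -(Affine.Point.some (σ x1) (s * (α * σ x1 + 3 * β))
        (hV.Q_nons hs2 hCσ) : Pt (Eab a b) (AlgebraicClosure k)) := by
      refine Eq.trans ?_ (congrArg (fun z : Pt (Eab a b) (AlgebraicClosure k) => -z) hu.symm)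
      show -Q + (-u) • P = -(Q + u • P)
      rw [neg_add, neg_smul]
    refine Eq.trans ?_ e2.symm
    refine Eq.trans ?_ (hV.neg_eq (hV.Q_nons hs2 hCσ) (hV.neg_nons (hV.Q_nons hs2 hCσ))).symm
    show (Affine.Point.some _ _ _ : ((Eab a b).baseChange (AlgebraicClosure k)).toAffine.Point) =
      Affine.Point.some _ _ _
    rw [Affine.Point.some.injEq]
    refine ⟨rfl, ?_⟩
    show σ (s * (α * x1 + 3 * β)) = -(s * (α * σ x1 + 3 * β))
    rw [hs]
    simp only [map_mul, map_div₀, map_add, map_ofNat, h, h2, hσα, hσβ]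
    ring

end Pool.Agent.W2helper3.RG
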